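import Pool.Agent.H74.BTL.Targets

set_option autoImplicit false

open scoped ENNReal RealInnerProductSpace
open Filter Topology

universe u

namespace Pool.Agent.H15.BTL

open Pool.Agent.H74.BTL

theorem pf_ADD (h1 : T_RNT.{u}) (h2 : T_EQA.{u}) (h3 : T_DMB.{u}) : T_ADD.{u} := by
  intro G _ I _ V W Z hV hW hZ hVW hVZ hWZ
  obtain ⟨m1, m2, m3, m4⟩ := h3 G I
  obtain ⟨e1, e2, e3⟩ := h2 G I I
  obtain ⟨e3a, e3b, e3c, e3d⟩ := e3 V hV
  obtain ⟨_, _, pc, _⟩ := e3 Vᗮ e3b
  have hcl : Vᗮ.topologicalClosure = Vᗮ :=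
    (Submodule.isClosed_orthogonal V).submodule_topologicalClosure_eq
  have hoo : Vᗮᗮ = V.topologicalClosure := Submodule.orthogonal_orthogonal_eq_closure V
  have hker : kr (PR Vᗮ) = V.topologicalClosure := by
    ext x
    rw [mem_kr, ← hoo]
    unfold PR
    rw [Submodule.starProjection_apply_eq_zero_iff, Submodule.orthogonal_closure]
  have h4 := h1 G I I (PR Vᗮ) W pc hW
  rw [hker, inf_comm, hVW] at h4
  have h5 : dm (⊥ : Submodule ℝ (L2 (G × I))) = 0 := by
    have h := m4 ⊥ ⊥ (by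
      intro v hv w _
      rw [(Submodule.mem_bot ℝ).1 hv, inner_zero_left])
    rw [bot_sup_eq] at h
    linarith
  have hVZ' : V.topologicalClosure ≤ Z.topologicalClosure :=
    Submodule.topologicalClosure_minimal V hVZ Z.isClosed_topologicalClosure
  have h6 : ∀ v ∈ V, ∀ w ∈ mp (PR Vᗮ) W, ⟪v, w⟫ = (0 : ℝ) := by
    intro v hv w hw
    obtain ⟨x, -, rfl⟩ := mem_mp.1 hw
    have h7 : PR Vᗮ x ∈ Vᗮ := by
      have h8 : PR Vᗮ x ∈ Vᗮ.topologicalClosure := Submodule.starProjection_apply_mem _ x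
      rwa [hcl] at h8
    exact h7 v hv
  have h7 := m4 V (mp (PR Vᗮ) W) h6
  have h8 : V ⊔ mp (PR Vᗮ) W ≤ Z.topologicalClosure := by
    refine sup_le hVZ fun w hw => ?_
    obtain ⟨x, hx, rfl⟩ := mem_mp.1 hw
    have h9 : x - PR Vᗮ x ∈ Z.topologicalClosure := by
      apply hVZ'
      rw [← hoo]
      have h10 : x - PR Vᗮ x ∈ Vᗮ.topologicalClosureᗮ :=
        Submodule.sub_starProjection_mem_orthogonal (K := Vᗮ.topologicalClosure) x
      rwa [Submodule.orthogonal_closure] at h10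
    have h11 := Submodule.sub_mem _ (hWZ hx) h9
    rwa [sub_sub_cancel] at h11
  have h9 := m1 _ _ h8
  linarith

end Pool.Agent.H15.BTL
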