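import Pool.Agent.H74.BTL.Targets

set_option autoImplicit false

open scoped ENNReal RealInnerProductSpace
open Filter Topology

universe u

namespace Pool.Agent.H15.BTL

open Pool.Agent.H74.BTL

theorem pf_CMP : T_CMP.{u} := by
  intro G _ I _ s h hs hi g
  have hg : g ∈ Subgroup.closure (Set.range s) := by rw [hs]; trivial
  refine Subgroup.closure_induction
    (p := fun g _ => ∃ ξ : L2 G, ∀ x, ξ x = h (x * g) - h x) ?_ ?_ ?_ ?_ hg
  · rintro _ ⟨i, rfl⟩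
    exact hi i
  · refine ⟨0, fun x => ?_⟩
    rw [mul_one, sub_self]
    rfl
  · rintro a b _ _ ⟨ξ, h1⟩ ⟨η, h2⟩
    refine ⟨ξ + rt a η, fun x => ?_⟩
    have h3 : ((ξ + rt a η : L2 G) : G → ℝ) x = ξ x + (rt a η : G → ℝ) x := rfl
    rw [h3, rt_apply, h1, h2, mul_assoc]
    ring
  · rintro a _ ⟨ξ, h1⟩
    refine ⟨-(rt a⁻¹ ξ), fun x => ?_⟩
    have h3 : ((-(rt a⁻¹ ξ) : L2 G) : G → ℝ) x = -((rt a⁻¹ ξ : G → ℝ) x) := rfl
    rw [h3, rt_apply, h1, inv_mul_cancel_right]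
    ring

end Pool.Agent.H15.BTL
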