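import Pool.Agent.H74.BTL.Targets

set_option autoImplicit false

open scoped ENNReal RealInnerProductSpace
open Filter Topology

universe u

namespace Pool.Agent.H15.BTL

open Pool.Agent.H74.BTL

theorem pf_LQ2 : T_LQ2.{u} := by
  intro G _ I _ s ζ hh x i
  have h1 : ∑ i, (rt (s i) ζ + rt (s i)⁻¹ ζ - (2 : ℝ) • ζ) = 0 := by
    ext y
    rw [lp.coeFn_sum, Finset.sum_apply]
    exact hh y
  have h2 : ∀ i, ⟪ζ, rt (s i) ζ + rt (s i)⁻¹ ζ - (2 : ℝ) • ζ⟫ = -‖rt (s i) ζ - ζ‖ ^ 2 := by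
    intro i
    have e1 : ⟪ζ, rt (s i)⁻¹ ζ⟫ = (⟪rt (s i) ζ, ζ⟫ : ℝ) := by
      rw [← inner_rt (s i) ζ (rt (s i)⁻¹ ζ), ← rt_mul, mul_inv_cancel, rt_one]
    rw [@norm_sub_sq_real, norm_rt, inner_sub_right, inner_add_right, inner_smul_right, e1,
      real_inner_self_eq_norm_sq, real_inner_comm]
    ring
  have h3 : ∑ i, ‖rt (s i) ζ - ζ‖ ^ 2 = 0 := by
    have h4 : ⟪ζ, ∑ i, (rt (s i) ζ + rt (s i)⁻¹ ζ - (2 : ℝ) • ζ)⟫ = (0 : ℝ) := by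
      rw [h1, inner_zero_right]
    rw [inner_sum, Finset.sum_congr rfl fun i _ => h2 i, Finset.sum_neg_distrib] at h4
    linarith
  have h5 := (Finset.sum_eq_zero_iff_of_nonneg fun i _ => sq_nonneg ‖rt (s i) ζ - ζ‖).1 h3 i
    (Finset.mem_univ i)
  have h6 : rt (s i) ζ = ζ := by
    have h7 : ‖rt (s i) ζ - ζ‖ = 0 := by nlinarith [norm_nonneg (rt (s i) ζ - ζ)]
    exact sub_eq_zero.1 (norm_eq_zero.1 h7)
  rw [← rt_apply (s i) ζ x, h6]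

end Pool.Agent.H15.BTL
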