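import Pool.Agent.H74.BTL.Targets

set_option autoImplicit false

open scoped ENNReal RealInnerProductSpace
open Filter Topology

universe u

namespace Pool.Agent.H15.BTL

open Pool.Agent.H74.BTL

theorem pf_NNG (h1 : T_FOL.{u}) (h2 : T_AMB.{u}) (h3 : T_ZDM.{u}) (h4 : T_ORT.{u})
    (h5 : T_DMB.{u}) (h6 : T_BDF.{u}) : T_NNG.{u} := by
  classical
  intro G _ I _ s h dh hinf hcl hhar hdh hne
  by_contra hNA
  have a1 : (Fintype.card I : ℝ) - 1 ≤ dm (Cf s) := by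
    refine h2 G I s fun ε hε => ?_
    obtain ⟨X, hX, hX2⟩ := h1 G hNA (Finset.univ.image s) ε hε
    exact ⟨X, hX, fun i => hX2 (s i) (Finset.mem_image_of_mem s (Finset.mem_univ i))⟩
  obtain ⟨-, a2⟩ := h3 G I s
  have a3 := a2 hinf hcl
  obtain ⟨o1, o2, o3⟩ := h4 G I s h dh hdh
  obtain ⟨m1, m2, m3, m4⟩ := h5 G I
  obtain ⟨-, -, b1, -, -⟩ := h6 G I s
  have c1 : ∀ v ∈ Cf s, ∀ w ∈ Et dh, ⟪v, w⟫ = (0 : ℝ) := by
    intro v hv w hw
    refine Submodule.span_induction (p := fun w _ => ⟪v, w⟫ = (0 : ℝ)) ?_ ?_ ?_ ?_ hw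
    · rintro _ ⟨g, rfl⟩
      exact o1 v hv g
    · exact inner_zero_right v
    · intro x y _ _ hx hy
      rw [inner_add_right, hx, hy, add_zero]
    · intro c x _ hx
      rw [inner_smul_right, hx, mul_zero]
  have c2 := m4 _ _ c1
  have c3 : dm (Cf s ⊔ Et dh) ≤ dm (kr (bd s)) :=
    m1 _ _ ((sup_le b1 (o2 hhar)).trans (Submodule.le_topologicalClosure _))
  have c4 : 0 < dm (Et dh) := by
    refine m3 _ o3 fun hb => hne ?_
    have c5 : dh ∈ Et dh := Submodule.subset_span ⟨1, lt_one dh⟩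
    rw [hb] at c5
    exact (Submodule.mem_bot ℝ).1 c5
  linarith

end Pool.Agent.H15.BTL
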