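import Pool.Agent.H74.BTL.Targets

set_option autoImplicit false

open scoped ENNReal RealInnerProductSpace
open Filter Topology

universe u

namespace Pool.Agent.H15.BTL

open Pool.Agent.H74.BTL

theorem pf_OVL : T_OVL.{u} := by
  classical
  intro G _ B
  refine ⟨(B ×ˢ B).image fun p => p.1⁻¹ * p.2, fun ξ η g g' h1 h2 => ?_⟩
  by_cases hD : g⁻¹ * g' ∈ (B ×ˢ B).image fun p => p.1⁻¹ * p.2
  · rw [ind_true hD, mul_one, ← norm_rt g ξ, ← norm_rt g' η]
    exact abs_real_inner_le_norm _ _
  · rw [ind_false hD, mul_zero, inner_eq]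
    have h3 : ∀ x, (rt g ξ : G → ℝ) x * (rt g' η : G → ℝ) x = 0 := by
      intro x
      rw [rt_apply, rt_apply]
      by_cases hx : x * g ∈ B
      · by_cases hy : x * g' ∈ B
        · exfalso
          apply hD
          rw [Finset.mem_image]
          refine ⟨(x * g, x * g'), Finset.mem_product.2 ⟨hx, hy⟩, ?_⟩
          group
        · rw [h2 _ hy, mul_zero]
      · rw [h1 _ hx, zero_mul]
    rw [tsum_congr h3, tsum_zero, abs_zero]

end Pool.Agent.H15.BTL
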