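import Pool.Agent.H74.BTL.Targets

set_option autoImplicit false

open scoped ENNReal RealInnerProductSpace
open Filter Topology

universe u

namespace Pool.Agent.H15.BTL

open Pool.Agent.H74.BTL

theorem pf_WSS : T_WSS.{u} := by
  intro G _ J t ζ ξ
  constructor
  · intro w
    induction w with
    | nil => simp [WS]
    | cons j w ih =>
      rw [WS, ih]
      change _ = ∑ i : Fin (w.length + 1), rt (pr t ((j :: w).take i)) (ζ ((j :: w).get i))
      rw [Fin.sum_univ_succ]
      congr 1
      · change ζ j = rt (pr t ((j :: w).take 0)) (ζ j)
        rw [List.take_zero, pr_nil, rt_one]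
      · rw [map_sum]
        refine Finset.sum_congr rfl fun i _ => ?_
        rw [← rt_mul, ← pr_cons]
        rfl
  · intro w
    induction w with
    | nil => simp [WS]
    | cons j w ih =>
      rw [WS, ih, WS, WS, map_add]
      abel

end Pool.Agent.H15.BTL
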